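import Pool.Agent.N251.LF.AeTools

/-!
# All integers in windows around generic linear forms, from counts of the exceptions which save a power of the logarithm

Let all but `C X (log X) ^ (-s)` of the integers up to `X` have a property, `0 < s ≤ 2`. Let `v i` be vectors and `w i ≥ 1` such
that the sum of the `w i * (1 + log (1 + ‖v i‖)) ^ (-s)` converges. Then for almost all `α`, for all but finitely many `i` all
natural numbers within `w i` of `α · v i` have the property. (The lemma of Borel and Cantelli; `Pool.Agent.N251.LF.ae_core`.)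
-/

set_option autoImplicit false

open MeasureTheory Filter Finset

namespace Pool.Agent.Run7.h207.LG

open Pool.Agent.N251.LF (ae_core ae_row norm_eq' prod_summable)

/-- the windows have lengths at least `1`, and the sum of the `w i * (1 + log (1 + ‖v i‖)) ^ (-s)` converges -/
def Conv (s : ℝ) {k : ℕ} {ι : Type} (v : ι → Fin k → ℝ) (w : ι → ℝ) : Prop :=
  (∀ i, 1 ≤ w i) ∧ Summable fun i => w i * (1 + Real.log (1 + ‖v i‖)) ^ (-s)

lemma one_le_L (x : ℝ) (hx : 0 ≤ x) : 1 ≤ 1 + Real.log (1 + x) := by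
  have := Real.log_nonneg (show (1 : ℝ) ≤ 1 + x by linarith)
  linarith

lemma L_le : ∃ x₀ : ℝ, 4 ≤ x₀ ∧ ∀ x : ℝ, x₀ ≤ x → (1 + Real.log (1 + x)) ^ (2 : ℝ) ≤ x := by
  have hlarge : ∀ᶠ x : ℝ in atTop, (1 + Real.log (1 + x)) ^ (2 : ℝ) ≤ x := by
    have h1 := isLittleO_log_rpow_rpow_atTop (2 : ℝ) (show (0 : ℝ) < 1 by norm_num)
    have h2 : Tendsto (fun x : ℝ => Real.exp 1 * (1 + x)) atTop atTop :=
      (tendsto_atTop_add_const_left _ 1 tendsto_id).const_mul_atTop (Real.exp_pos 1)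
    have h3 := h2.eventually (h1.bound (show (0 : ℝ) < 1 / (2 * Real.exp 1) by positivity))
    filter_upwards [h3, eventually_ge_atTop (1 : ℝ)] with x h4 h5
    have h6 : Real.log (Real.exp 1 * (1 + x)) = 1 + Real.log (1 + x) := by
      rw [Real.log_mul (Real.exp_pos 1).ne' (by linarith), Real.log_exp]
    have h7 := one_le_L x (by linarith)
    rw [h6, Real.rpow_one, Real.norm_of_nonneg (Real.rpow_nonneg (by linarith) _),
      Real.norm_of_nonneg (mul_nonneg (Real.exp_pos 1).le (by linarith))] at h4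
    refine h4.trans ?_
    have h8 : 1 / (2 * Real.exp 1) * (Real.exp 1 * (1 + x)) = (1 + x) / 2 := by
      field_simp
    rw [h8]
    linarith
  obtain ⟨y, hy⟩ := hlarge.exists_forall_of_atTop
  exact ⟨max y 4, le_max_right _ _, fun x hx => hy x ((le_max_left _ _).trans hx)⟩

lemma L_le_log {x : ℝ} (hx : 4 ≤ x) : 1 + Real.log (1 + x) ≤ 3 * Real.log x := by
  have hx0 : 0 < x := by linarith
  have h1 : 1 ≤ Real.log x := by
    rw [Real.le_log_iff_exp_le hx0]
    have := Real.exp_one_lt_d9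
    linarith
  have h2 : Real.log (1 + x) ≤ Real.log (x ^ 2) := Real.log_le_log (by linarith) (by nlinarith)
  rw [Real.log_pow] at h2
  push_cast at h2
  linarith

lemma Conv.pos {s : ℝ} {k : ℕ} {ι : Type} {v : ι → Fin k → ℝ} {w : ι → ℝ} (h : Conv s v w) (i : ι) :
    0 < w i * (1 + Real.log (1 + ‖v i‖)) ^ (-s) := by
  have h1 := one_le_L ‖v i‖ (norm_nonneg _)
  have h2 := h.1 i
  have h3 : 0 < (1 + Real.log (1 + ‖v i‖)) ^ (-s) := Real.rpow_pos_of_pos (by linarith) _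
  exact mul_pos (by linarith) h3

lemma Conv.countable {s : ℝ} {k : ℕ} {ι : Type} {v : ι → Fin k → ℝ} {w : ι → ℝ} (h : Conv s v w) : Countable ι := by
  have h1 := h.2.countable_support
  rw [← Set.countable_univ_iff]
  refine h1.mono fun i _ => ?_
  exact (h.pos i).ne'

lemma Conv.finite {s : ℝ} (hs : 0 ≤ s) {k : ℕ} {ι : Type} {v : ι → Fin k → ℝ} {w : ι → ℝ} (h : Conv s v w) (X : ℝ) :
    {i | ‖v i‖ ≤ X}.Finite := by
  have hX0 : 0 < (1 + Real.log (1 + |X|)) ^ (-s) :=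
    Real.rpow_pos_of_pos (by linarith [one_le_L |X| (abs_nonneg _)]) _
  have h1 := h.2.tendsto_cofinite_zero.eventually (gt_mem_nhds hX0)
  rw [Filter.eventually_cofinite] at h1
  refine h1.subset ?_
  intro i hi
  have hi' : ‖v i‖ ≤ X := hi
  simp only [Set.mem_ofPred_eq, not_lt]
  have h2 : 1 + Real.log (1 + ‖v i‖) ≤ 1 + Real.log (1 + |X|) := by
    have := Real.log_le_log (show 0 < 1 + ‖v i‖ by linarith [norm_nonneg (v i)])
      (show 1 + ‖v i‖ ≤ 1 + |X| by linarith [le_abs_self X])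
    linarith
  have h3 := one_le_L ‖v i‖ (norm_nonneg _)
  have h4 : (1 + Real.log (1 + |X|)) ^ (-s) ≤ (1 + Real.log (1 + ‖v i‖)) ^ (-s) :=
    Real.rpow_le_rpow_of_nonpos (by linarith) h2 (by linarith)
  have h5 : 0 < (1 + Real.log (1 + ‖v i‖)) ^ (-s) := Real.rpow_pos_of_pos (by linarith) _
  have h6 := h.1 i
  nlinarith

/-- **All integers in windows around generic linear forms.** -/
theorem ae_log {s : ℝ} (hs : 0 < s) (hs1 : s ≤ 2) (E : ℤ → Prop)
    (hE : ∃ C : ℝ, 0 < C ∧ ∀ X : ℕ, 3 ≤ X → ({n : ℤ | |n| ≤ X ∧ E n}.ncard : ℝ) ≤ C * X * Real.log X ^ (-s))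
    {ι : Type} {k : ℕ} (v : ι → Fin k → ℝ) (w : ι → ℝ) (hv : Conv s v w) :
    ∀ᵐ α : Fin k → ℝ, {i | ∃ n : ℤ, E n ∧ |(n : ℝ) - ∑ j, α j * v i j| ≤ w i}.Finite := by
  classical
  obtain ⟨C, hC, hE⟩ := hE
  obtain ⟨x₀, hx₀, hx₁⟩ := L_le
  have : Countable ι := hv.countable
  have hfin1 : {i | ¬ w i * (1 + Real.log (1 + ‖v i‖)) ^ (-s) < 1}.Finite := by
    have h1 := hv.2.tendsto_cofinite_zero.eventually (gt_mem_nhds (one_pos (α := ℝ)))
    rwa [Filter.eventually_cofinite] at h1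
  refine ae_row (fun α : Fin k → ℝ => {i | ∃ n : ℤ, E n ∧ |(n : ℝ) - ∑ j, α j * v i j| ≤ w i}.Finite) ?_
  have key : ∀ (j0 : Fin k) (R : ℕ), ∀ᵐ α : Fin 1 × Fin k → ℝ, (∀ p, |α p| ≤ R) →
      {i | (∀ j, |v i j| ≤ |v i j0|) ∧ ∃ n : ℤ, E n ∧ |(n : ℝ) - ∑ j, α (0, j) * v i j| ≤ w i}.Finite := by
    intro j0 R
    obtain ⟨M, hM⟩ : ∃ M : ℕ, M = k * R + 1 := ⟨_, rfl⟩
    have hM1 : (1 : ℝ) ≤ M := by
      rw [hM]; push_cast
      have : (0 : ℝ) ≤ (k : ℝ) * R := by positivity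
      linarith
    set I : Type := {i : ι // (∀ j, |v i j| ≤ |v i j0|) ∧ x₀ ≤ ‖v i‖} with hI
    have hIn : ∀ i : I, ‖v i.1‖ = |v i.1 j0| := fun i => norm_eq' i.2.1
    obtain ⟨F, hF⟩ : ∃ F : I → Finset ℤ, F = fun i : I =>
      (Finset.Icc (-((M * ⌈‖v i.1‖⌉₊ : ℕ) : ℤ)) ((M * ⌈‖v i.1‖⌉₊ : ℕ) : ℤ)).filter (fun n => E n) := ⟨_, rfl⟩
    have hFc : ∀ i : I, ((F i).card : ℝ) ≤ 18 * C * M * ‖v i.1‖ * (1 + Real.log (1 + ‖v i.1‖)) ^ (-s) := by
      intro i
      obtain ⟨x, hx⟩ : ∃ x : ℝ, x = ‖v i.1‖ := ⟨_, rfl⟩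
      have hx4 : 4 ≤ x := by rw [hx]; exact hx₀.trans i.2.2
      obtain ⟨X, hX⟩ : ∃ X : ℕ, X = M * ⌈x⌉₊ := ⟨_, rfl⟩
      have hcx : x ≤ (⌈x⌉₊ : ℝ) := Nat.le_ceil x
      have hcx2 : (⌈x⌉₊ : ℝ) < x + 1 := Nat.ceil_lt_add_one (by linarith)
      have hXx : x ≤ (X : ℝ) := by
        rw [hX]; push_cast
        nlinarith
      have hX2 : (X : ℝ) ≤ 2 * M * x := by
        rw [hX]; push_cast
        nlinarith
      have hX3 : 3 ≤ X := by
        have : (3 : ℝ) ≤ X := by linarith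
        exact_mod_cast this
      have h1 := hE X hX3
      have hfin : {n : ℤ | |n| ≤ X ∧ E n}.Finite := (Set.finite_Icc (-(X : ℤ)) X).subset fun n hn => abs_le.1 hn.1
      have hsub : ((F i : Finset ℤ) : Set ℤ) ⊆ {n : ℤ | |n| ≤ X ∧ E n} := by
        intro n hn
        rw [hF] at hn
        simp only [coe_filter, Finset.mem_Icc, Set.mem_ofPred_eq] at hn
        rw [← hx, ← hX] at hn
        exact ⟨abs_le.2 hn.1, hn.2⟩
      have h2 := Set.ncard_le_ncard hsub hfin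
      rw [Set.ncard_coe_finset] at h2
      have h3 : ((F i).card : ℝ) ≤ ({n : ℤ | |n| ≤ X ∧ E n}.ncard : ℝ) := by exact_mod_cast h2
      have hlx : 0 < Real.log x := Real.log_pos (by linarith)
      have hlX : Real.log x ≤ Real.log X := Real.log_le_log (by linarith) hXx
      have h4 : Real.log X ^ (-s) ≤ Real.log x ^ (-s) := Real.rpow_le_rpow_of_nonpos hlx hlX (by linarith)
      have hL1 := one_le_L x (by linarith)
      have hL3 := L_le_log hx4
      obtain ⟨L, hL⟩ : ∃ L : ℝ, L = 1 + Real.log (1 + x) := ⟨_, rfl⟩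
      rw [← hL] at hL1 hL3
      have h5 : Real.log x ^ (-s) ≤ 9 * L ^ (-s) := by
        have h6 : (3 * Real.log x) ^ (-s) ≤ L ^ (-s) := Real.rpow_le_rpow_of_nonpos (by linarith) hL3 (by linarith)
        rw [Real.mul_rpow (by norm_num) hlx.le] at h6
        have h7 : (3 : ℝ) ^ (-2 : ℝ) ≤ 3 ^ (-s) := Real.rpow_le_rpow_of_exponent_le (by norm_num) (by linarith)
        have h7' : (3 : ℝ) ^ (-2 : ℝ) = 1 / 9 := by
          rw [Real.rpow_neg (by norm_num), show (2 : ℝ) = ((2 : ℕ) : ℝ) by norm_num, Real.rpow_natCast]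
          norm_num
        rw [h7'] at h7
        have h8 : 0 < Real.log x ^ (-s) := Real.rpow_pos_of_pos hlx _
        have h9 : (1 / 9 : ℝ) * Real.log x ^ (-s) ≤ L ^ (-s) := (mul_le_mul_of_nonneg_right h7 h8.le).trans h6
        linarith
      rw [← hx, ← hL]
      have h10 : 0 < L ^ (-s) := Real.rpow_pos_of_pos (by linarith) _
      calc ((F i).card : ℝ) ≤ C * X * Real.log X ^ (-s) := h3.trans h1
        _ ≤ C * (2 * M * x) * (9 * L ^ (-s)) := by
            apply mul_le_mul (mul_le_mul_of_nonneg_left hX2 hC.le) (h4.trans h5)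
            · exact Real.rpow_nonneg (Real.log_natCast_nonneg X) _
            · positivity
        _ = 18 * C * M * x * L ^ (-s) := by ring
    have hcore := ae_core (m := 1) j0 (fun i : I => v i.1) (fun i => by
        have h1 := hx₀.trans i.2.2
        rw [hIn] at h1
        have : 0 < |v i.1 j0| := by linarith
        exact abs_pos.1 this) F (fun n _ => (n : ℝ))
      (fun i => w i.1) (fun i => by linarith [hv.1 i.1]) (by
        have hA' : Summable fun i : I => (18 * C * M) * (w i.1 * (1 + Real.log (1 + ‖v i.1‖)) ^ (-s)) :=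
          (hv.2.comp_injective Subtype.val_injective).mul_left _
        refine Summable.of_nonneg_of_le (fun i => ?_) (fun i => ?_) hA'
        · have := hv.1 i.1
          positivity
        have h4 := hx₀.trans i.2.2
        have h5 := hFc i
        have h6 := hv.1 i.1
        rw [← hIn i, pow_one]
        obtain ⟨x, hx⟩ : ∃ x : ℝ, x = ‖v i.1‖ := ⟨_, rfl⟩
        rw [← hx] at h4 h5 ⊢
        have hx0 : 0 < x := by linarith
        obtain ⟨D, hD⟩ : ∃ D : ℝ, D = (1 + Real.log (1 + x)) ^ (-s) := ⟨_, rfl⟩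
        rw [← hD] at h5 ⊢
        calc ((F i).card : ℝ) * (w i.1 / x) ≤ (18 * C * M * x * D) * (w i.1 / x) :=
              mul_le_mul_of_nonneg_right h5 (div_nonneg (by linarith) hx0.le)
          _ = 18 * C * M * (w i.1 * D) := by field_simp) (R : ℝ)
    filter_upwards [hcore] with α hα hR
    have h1 := hα hR
    refine (((h1.image Subtype.val).union (hv.finite hs.le x₀)).union hfin1).subset ?_
    rintro i ⟨h2, n, hn, h3⟩
    by_cases hw1 : w i * (1 + Real.log (1 + ‖v i‖)) ^ (-s) < 1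
    swap
    · exact Or.inr hw1
    left
    rcases le_total ‖v i‖ x₀ with h4 | h4
    · right
      exact h4
    · left
      refine ⟨⟨i, h2, h4⟩, ⟨n, ?_, fun l => ?_⟩, rfl⟩
      · rw [hF]
        simp only [mem_filter, Finset.mem_Icc]
        refine ⟨?_, hn⟩
        have hnorm := norm_eq' h2
        have w1 : w i ≤ ‖v i‖ := by
          have hL1 := one_le_L ‖v i‖ (norm_nonneg _)
          have hL2 := hx₁ ‖v i‖ h4
          obtain ⟨L, hL⟩ : ∃ L : ℝ, L = 1 + Real.log (1 + ‖v i‖) := ⟨_, rfl⟩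
          rw [← hL] at hL1 hL2 hw1
          have hL0 : 0 < L := by linarith
          have h5 : L ^ s ≤ L ^ (2 : ℝ) := Real.rpow_le_rpow_of_exponent_le hL1 hs1
          have h6 : w i * L ^ (-s) * L ^ s = w i := by
            rw [mul_assoc, ← Real.rpow_add hL0]
            simp
          have h7 : 0 < L ^ s := Real.rpow_pos_of_pos hL0 _
          have h8 : w i ≤ L ^ s := by
            rw [← h6]
            nlinarith
          linarith
        have h7 : |∑ j, α (0, j) * v i j| ≤ (k : ℝ) * R * ‖v i‖ := by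
          refine (Finset.abs_sum_le_sum_abs _ _).trans ?_
          have : ∀ j ∈ (Finset.univ : Finset (Fin k)), |α (0, j) * v i j| ≤ R * ‖v i‖ := by
            intro j _
            rw [abs_mul, hnorm]
            exact mul_le_mul (hR (0, j)) (h2 j) (abs_nonneg _) (Nat.cast_nonneg R)
          refine (Finset.sum_le_sum this).trans (le_of_eq ?_)
          rw [Finset.sum_const, Finset.card_univ, Fintype.card_fin, nsmul_eq_mul]
          ring
        have h8 := abs_le.1 h3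
        have h9 := abs_le.1 h7
        have h10 : |(n : ℝ)| ≤ M * ‖v i‖ := by
          rw [hM]; push_cast
          rw [abs_le]
          constructor <;> nlinarith [h8.1, h8.2, h9.1, h9.2]
        have h11 : |(n : ℝ)| ≤ ((M * ⌈‖v i‖⌉₊ : ℕ) : ℝ) := by
          push_cast
          exact h10.trans (mul_le_mul_of_nonneg_left (Nat.le_ceil _) (by linarith))
        have h12 : |n| ≤ ((M * ⌈‖v i‖⌉₊ : ℕ) : ℤ) := by exact_mod_cast h11
        exact abs_le.1 h12
      · have : l = 0 := Subsingleton.elim _ _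
        rw [this, abs_sub_comm]
        exact h3
  have key2 : ∀ᵐ α : Fin 1 × Fin k → ℝ, ∀ (j0 : Fin k) (R : ℕ), (∀ p, |α p| ≤ R) →
      {i | (∀ j, |v i j| ≤ |v i j0|) ∧ ∃ n : ℤ, E n ∧ |(n : ℝ) - ∑ j, α (0, j) * v i j| ≤ w i}.Finite := by
    rw [ae_all_iff]; intro j0
    rw [ae_all_iff]; intro R
    exact key j0 R
  filter_upwards [key2] with α hα
  obtain ⟨R, hR⟩ := exists_nat_ge ‖α‖
  rcases isEmpty_or_nonempty (Fin k) with hk | hk
  · refine (hv.finite hs.le 0).subset fun i _ => ?_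
    exact (pi_norm_le_iff_of_nonneg le_rfl).2 fun j => (hk.false j).elim
  · refine (Set.finite_iUnion fun j0 : Fin k => hα j0 R fun p => (norm_le_pi_norm α p).trans hR).subset ?_
    intro i hi
    simp only [Set.mem_ofPred_eq] at hi
    obtain ⟨n, h1, h2⟩ := hi
    obtain ⟨j0, hj0⟩ := Finite.exists_max (fun j => |v i j|)
    rw [Set.mem_iUnion]
    exact ⟨j0, hj0, n, h1, h2⟩

/-- the same for natural numbers -/
theorem ae_log_nat {s : ℝ} (hs : 0 < s) (hs1 : s ≤ 2) (E : ℕ → Prop)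
    (hE : ∃ C : ℝ, 0 < C ∧ ∀ X : ℕ, 3 ≤ X → ({n : ℕ | n ≤ X ∧ E n}.ncard : ℝ) ≤ C * X * Real.log X ^ (-s))
    {ι : Type} {k : ℕ} (v : ι → Fin k → ℝ) (w : ι → ℝ) (hv : Conv s v w) :
    ∀ᵐ α : Fin k → ℝ, {i | ∃ n : ℕ, E n ∧ |(n : ℝ) - ∑ j, α j * v i j| ≤ w i}.Finite := by
  obtain ⟨C, hC, h⟩ := hE
  have h1 := ae_log hs hs1 (fun D : ℤ => ∃ n : ℕ, D = n ∧ E n) ⟨C, hC, fun X hX => by
    refine le_trans ?_ (h X hX)
    have hfin : {n : ℕ | n ≤ X ∧ E n}.Finite := (Set.finite_le_nat X).subset fun n hn => hn.1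
    have hsub : {D : ℤ | |D| ≤ X ∧ ∃ n : ℕ, D = n ∧ E n} ⊆ (fun n : ℕ => (n : ℤ)) '' {n : ℕ | n ≤ X ∧ E n} := by
      rintro D ⟨h1, n, rfl, h2⟩
      refine ⟨n, ⟨?_, h2⟩, rfl⟩
      rw [abs_of_nonneg (Int.natCast_nonneg n)] at h1
      exact_mod_cast h1
    have h2 := (Set.ncard_le_ncard hsub (hfin.image _)).trans (Set.ncard_image_le hfin)
    exact_mod_cast h2⟩ v w hv
  filter_upwards [h1] with α hα
  refine hα.subset ?_
  rintro i ⟨n, h2, h3⟩
  exact ⟨n, ⟨n, rfl, h2⟩, by exact_mod_cast h3⟩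

/-- the families and windows for which the theorem is stated: windows of lengths at least `1`, and the sum of the
`w i / (1 + log (1 + ‖v i‖)) ^ s` converges for some `s < 1` -/
def Sparse {k : ℕ} {ι : Type} (v : ι → Fin k → ℝ) (w : ι → ℝ) : Prop :=
  (∀ i, 1 ≤ w i) ∧ ∃ s : ℝ, s < 1 ∧ Summable fun i => w i / (1 + Real.log (1 + ‖v i‖)) ^ s

lemma Sparse.conv {k : ℕ} {ι : Type} {v : ι → Fin k → ℝ} {w : ι → ℝ} (h : Sparse v w) :
    ∃ s : ℝ, 0 < s ∧ s < 1 ∧ Conv s v w := by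
  obtain ⟨h1, s, hs, h2⟩ := h
  refine ⟨max s (1 / 2), lt_max_of_lt_right (by norm_num), max_lt hs (by norm_num), h1, ?_⟩
  refine Summable.of_nonneg_of_le (fun i => ?_) (fun i => ?_) h2
  · have hL := one_le_L ‖v i‖ (norm_nonneg _)
    have := h1 i
    exact mul_nonneg (by linarith) (Real.rpow_nonneg (by linarith) _)
  · have hL := one_le_L ‖v i‖ (norm_nonneg _)
    have h3 := h1 i
    rw [Real.rpow_neg (by linarith), ← div_eq_mul_inv]
    apply div_le_div_of_nonneg_left (by linarith) (Real.rpow_pos_of_pos (by linarith) _)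
    exact Real.rpow_le_rpow_of_exponent_le hL (le_max_left _ _)

/-- **The form used for counts with `(log X) ^ (ε - 1)`.** -/
theorem ae_sparse (E : ℕ → Prop)
    (hE : ∀ ε : ℝ, 0 < ε → ∃ C : ℝ, 0 < C ∧ ∀ X : ℕ, 3 ≤ X →
      ({n : ℕ | n ≤ X ∧ E n}.ncard : ℝ) ≤ C * X * Real.log X ^ (ε - 1))
    {ι : Type} {k : ℕ} (v : ι → Fin k → ℝ) (w : ι → ℝ) (hv : Sparse v w) :
    ∀ᵐ α : Fin k → ℝ, {i | ∃ n : ℕ, E n ∧ |(n : ℝ) - ∑ j, α j * v i j| ≤ w i}.Finite := by
  obtain ⟨s, hs0, hs1, hc⟩ := hv.conv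
  refine ae_log_nat hs0 (by linarith) E ?_ v w hc
  obtain ⟨C, hC, h⟩ := hE (1 - s) (by linarith)
  refine ⟨C, hC, fun X hX => ?_⟩
  have := h X hX
  rwa [show (1 - s - 1 : ℝ) = -s by ring] at this

/-- **Examples**: products of sequences which grow fast enough. -/
theorem conv_prod {k : ℕ} (hk : 0 < k) {s a b c A : ℝ} (hs0 : 0 < s) (hb : 0 ≤ b) (hc : 0 < c) (hA : 1 ≤ A)
    (hsa : k * (1 + b) < a * s) (u : Fin k → ℕ → ℝ)
    (hu : ∀ (j : Fin k) (n : ℕ), c * ((n : ℝ) + 1) ^ a ≤ 1 + Real.log (1 + |u j n|)) :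
    Conv s (fun (n : Fin k → ℕ) (j : Fin k) => u j (n j)) (fun n => A * ∏ j, ((n j : ℝ) + 1) ^ b) := by
  have hk0 : (0 : ℝ) < k := by exact_mod_cast hk
  have hk1 : (1 : ℝ) ≤ k := by exact_mod_cast hk
  refine ⟨fun n => ?_, ?_⟩
  · have h1 : (1 : ℝ) ≤ ∏ j, ((n j : ℝ) + 1) ^ b := by
      calc (1 : ℝ) = ∏ _j : Fin k, (1 : ℝ) := by simp
        _ ≤ _ := Finset.prod_le_prod (fun _ _ => zero_le_one) fun j _ =>
          Real.one_le_rpow (by have := Nat.cast_nonneg (α := ℝ) (n j); linarith) hb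
    nlinarith
  · obtain ⟨d, hd⟩ : ∃ d : ℝ, d = a * s / k - b := ⟨_, rfl⟩
    have hd1 : 1 < d := by
      rw [hd]
      have : 1 + b < a * s / k := by
        rw [lt_div_iff₀ hk0]
        linarith
      linarith
    have hsum : Summable fun n : Fin k → ℕ => (A / c ^ s) * ∏ j : Fin k, 1 / ((n j : ℝ) + 1) ^ d := by
      refine (prod_summable (fun _ n => 1 / ((n : ℝ) + 1) ^ d) (fun j n => by positivity) fun j => ?_).mul_left _
      have h1 := (Real.summable_one_div_nat_rpow (p := d)).2 hd1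
      have h2 := (summable_nat_add_iff 1).2 h1
      simpa using h2
    refine Summable.of_nonneg_of_le (fun n => ?_) (fun n => ?_) hsum
    · have hL := one_le_L ‖(fun j => u j (n j))‖ (norm_nonneg _)
      have : (0 : ℝ) ≤ (1 + Real.log (1 + ‖fun j => u j (n j)‖)) ^ (-s) := Real.rpow_nonneg (by linarith) _
      have h3 : (0 : ℝ) ≤ ∏ j, ((n j : ℝ) + 1) ^ b := Finset.prod_nonneg fun j _ => by positivity
      exact mul_nonneg (mul_nonneg (by linarith) h3) this
    · have hL := one_le_L ‖(fun j => u j (n j))‖ (norm_nonneg _)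
      obtain ⟨L, hLd⟩ : ∃ L : ℝ, L = 1 + Real.log (1 + ‖(fun j => u j (n j))‖) := ⟨_, rfl⟩
      rw [← hLd] at hL ⊢
      have hL0 : 0 < L := by linarith
      have h1 : ∀ j, c * ((n j : ℝ) + 1) ^ a ≤ L := by
        intro j
        have h2 := hu j (n j)
        have h3 : |u j (n j)| ≤ ‖(fun j => u j (n j))‖ := norm_le_pi_norm (fun j => u j (n j)) j
        have h4 : Real.log (1 + |u j (n j)|) ≤ Real.log (1 + ‖(fun j => u j (n j))‖) :=
          Real.log_le_log (by positivity) (by linarith)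
        rw [hLd]
        linarith
      have h2 : ∀ j, (c * ((n j : ℝ) + 1) ^ a) ^ (s / k) ≤ L ^ (s / k) := fun j =>
        Real.rpow_le_rpow (by positivity) (h1 j) (by positivity)
      have h3 : ∏ j : Fin k, (c * ((n j : ℝ) + 1) ^ a) ^ (s / k) ≤ L ^ s := by
        refine (prod_le_prod (fun j _ => by positivity) fun j _ => h2 j).trans (le_of_eq ?_)
        rw [prod_const, card_univ, Fintype.card_fin, ← Real.rpow_natCast, ← Real.rpow_mul hL0.le]
        congr 1
        field_simp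
      have h4 : ∀ j : Fin k, (c * ((n j : ℝ) + 1) ^ a) ^ (s / k) =
          c ^ (s / k) * (((n j : ℝ) + 1) ^ d * ((n j : ℝ) + 1) ^ b) := by
        intro j
        have hn : (0 : ℝ) < (n j : ℝ) + 1 := by positivity
        rw [Real.mul_rpow hc.le (by positivity), ← Real.rpow_mul hn.le, ← Real.rpow_add hn]
        congr 2
        rw [hd]
        ring
      have h5 : ∏ j : Fin k, (c * ((n j : ℝ) + 1) ^ a) ^ (s / k) =
          c ^ s * ((∏ j : Fin k, ((n j : ℝ) + 1) ^ d) * ∏ j : Fin k, ((n j : ℝ) + 1) ^ b) := by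
        rw [prod_congr rfl fun j _ => h4 j, prod_mul_distrib, prod_mul_distrib, prod_const, card_univ,
          Fintype.card_fin, ← Real.rpow_natCast, ← Real.rpow_mul hc.le]
        congr 2
        field_simp
      rw [h5] at h3
      have h6 : 0 < ∏ j : Fin k, ((n j : ℝ) + 1) ^ d := Finset.prod_pos fun j _ => by positivity
      have h7 : 0 < ∏ j : Fin k, ((n j : ℝ) + 1) ^ b := Finset.prod_pos fun j _ => by positivity
      have h8 : 0 < c ^ s := Real.rpow_pos_of_pos hc _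
      have h9 : ∏ j : Fin k, 1 / ((n j : ℝ) + 1) ^ d = 1 / ∏ j : Fin k, ((n j : ℝ) + 1) ^ d := by
        rw [prod_div_distrib, prod_const_one]
      rw [h9, div_mul_div_comm, mul_one, Real.rpow_neg hL0.le, ← div_eq_mul_inv,
        div_le_div_iff₀ (Real.rpow_pos_of_pos hL0 _) (by positivity)]
      have h10 : (0 : ℝ) ≤ A := by linarith
      calc A * (∏ j : Fin k, ((n j : ℝ) + 1) ^ b) * (c ^ s * ∏ j : Fin k, ((n j : ℝ) + 1) ^ d)
          = A * (c ^ s * ((∏ j : Fin k, ((n j : ℝ) + 1) ^ d) * ∏ j : Fin k, ((n j : ℝ) + 1) ^ b)) := by ring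
        _ ≤ A * L ^ s := mul_le_mul_of_nonneg_left h3 h10

/-- The same for `Sparse`. -/
theorem sparse_prod {k : ℕ} (hk : 0 < k) {a b c A : ℝ} (hb : 0 ≤ b) (hc : 0 < c) (hA : 1 ≤ A)
    (hab : k * (1 + b) < a) (u : Fin k → ℕ → ℝ)
    (hu : ∀ (j : Fin k) (n : ℕ), c * ((n : ℝ) + 1) ^ a ≤ 1 + Real.log (1 + |u j n|)) :
    Sparse (fun (n : Fin k → ℕ) (j : Fin k) => u j (n j)) (fun n => A * ∏ j, ((n j : ℝ) + 1) ^ b) := by
  have hk0 : (0 : ℝ) < k := by exact_mod_cast hk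
  have ha0 : 0 < a := lt_trans (by positivity) hab
  obtain ⟨s, hs1, hs2⟩ : ∃ s : ℝ, k * (1 + b) / a < s ∧ s < 1 :=
    exists_between ((div_lt_one ha0).2 hab)
  have hs0 : 0 < s := lt_trans (by positivity) hs1
  have hsa : k * (1 + b) < a * s := by
    rw [div_lt_iff₀ ha0] at hs1
    linarith
  obtain ⟨h1, h2⟩ := conv_prod hk hs0 hb hc hA hsa u hu
  refine ⟨h1, s, hs2, ?_⟩
  refine h2.congr fun n => ?_
  rw [Real.rpow_neg (by linarith [one_le_L ‖(fun j => u j (n j))‖ (norm_nonneg _)]), div_eq_mul_inv]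

end Pool.Agent.Run7.h207.LG
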