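import Mathlib

/-!
# No elements of a sparse set near the powers of almost all numbers

Let `E` be a set of natural numbers with at most `C X / (log X) ^ 2` elements up to `X`. If the sum of the `w n / (n + 1) ^ 2`
converges then for almost all `α > 1`, for all but finitely many `n` no element of `E` is within `w n` of `α ^ n`.
-/

set_option autoImplicit false

open MeasureTheory Filter Finset

namespace Pool.Agent.Run7.h207.LG

lemma vol_pow {n : ℕ} (hn : 1 ≤ n) {B z w : ℝ} (hB : 0 < B) (hz : 0 < z) (hw : w ≤ z / 2) :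
    volume {x : ℝ | 0 ≤ x ∧ x ≤ B ∧ |z - x ^ n| ≤ w} ≤ ENNReal.ofReal (4 * B * w / (n * z)) := by
  have hn0 : (0 : ℝ) < n := by exact_mod_cast hn
  have key : ∀ x y : ℝ, 0 ≤ x → x ≤ B → |z - x ^ n| ≤ w → y ≤ B → |z - y ^ n| ≤ w → x ≤ y →
      y - x ≤ 4 * B * w / (n * z) := by
    intro x y hx0 hxB hx hyB hy hxy
    rw [abs_le] at hx hy
    have h1 : z / 2 ≤ x ^ n := by linarith
    have hxpos : 0 < x := by
      rcases hx0.eq_or_lt with h | h
      · rw [← h, zero_pow (by omega)] at h1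
        linarith
      · exact h
    have h2 : 1 + (n : ℝ) * ((y - x) / x) ≤ (1 + (y - x) / x) ^ n := by
      have h3 : 0 ≤ (y - x) / x := div_nonneg (by linarith) hxpos.le
      exact one_add_mul_le_pow (by linarith) n
    have h4 : 1 + (y - x) / x = y / x := by field_simp; ring
    rw [h4, div_pow, le_div_iff₀ (pow_pos hxpos n)] at h2
    have h5 : (n : ℝ) * ((y - x) / x) * x ^ n ≤ 2 * w := by nlinarith
    have h6 : (n : ℝ) * ((y - x) / B) * (z / 2) ≤ (n : ℝ) * ((y - x) / x) * x ^ n := by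
      have h7 : (y - x) / B ≤ (y - x) / x := div_le_div_of_nonneg_left (by linarith) hxpos hxB
      have h8 : 0 ≤ (y - x) / B := div_nonneg (by linarith) hB.le
      gcongr
    have h9 : (n : ℝ) * ((y - x) / B) * (z / 2) ≤ 2 * w := h6.trans h5
    rw [le_div_iff₀ (by positivity)]
    have h10 : (n : ℝ) * ((y - x) / B) * (z / 2) * (2 * B) = (y - x) * (n * z) := by
      field_simp
    nlinarith
  refine (Real.volume_le_diam _).trans (Metric.ediam_le fun x hx y hy => ?_)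
  rw [edist_dist]
  refine ENNReal.ofReal_le_ofReal ?_
  obtain ⟨hx1, hx2, hx3⟩ := hx
  obtain ⟨hy1, hy2, hy3⟩ := hy
  rw [Real.dist_eq]
  rcases le_total x y with h | h
  · rw [abs_sub_comm, abs_of_nonneg (by linarith)]
    exact key x y hx1 hx2 hx3 hy2 hy3 h
  · rw [abs_of_nonneg (by linarith)]
    exact key y x hy1 hy2 hy3 hx2 hx3 h

/-- the elements of `E` in a dyadic block -/
noncomputable def blk (E : ℕ → Prop) (i : ℕ) : Finset ℕ := by
  classical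
  exact (Finset.Ico (2 ^ i) (2 ^ (i + 1))).filter E

lemma mem_blk {E : ℕ → Prop} {i z : ℕ} : z ∈ blk E i ↔ (2 ^ i ≤ z ∧ z < 2 ^ (i + 1)) ∧ E z := by
  classical
  unfold blk
  rw [Finset.mem_filter, Finset.mem_Ico]

lemma card_blk {E : ℕ → Prop} {C : ℝ} (hC : 0 < C)
    (hE : ∀ X : ℕ, 2 ≤ X → ({n : ℕ | 1 ≤ n ∧ n ≤ X ∧ E n}.ncard : ℝ) ≤ C * (X / (Real.log X) ^ 2)) {i : ℕ}
    (hi : 1 ≤ i) : ((blk E i).card : ℝ) ≤ 8 * C * 2 ^ i / (i : ℝ) ^ 2 := by
  have h1 := hE (2 ^ (i + 1)) (by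
    calc 2 = 2 ^ 1 := rfl
      _ ≤ 2 ^ (i + 1) := Nat.pow_le_pow_right (by norm_num) (by omega))
  have h2 : (blk E i).card ≤ {n : ℕ | 1 ≤ n ∧ n ≤ 2 ^ (i + 1) ∧ E n}.ncard := by
    rw [← Set.ncard_coe_finset]
    refine Set.ncard_le_ncard ?_ ((Set.finite_le_nat (2 ^ (i + 1))).subset fun n hn => hn.2.1)
    intro z hz
    rw [Finset.mem_coe, mem_blk] at hz
    exact ⟨le_trans Nat.one_le_two_pow hz.1.1, hz.1.2.le, hz.2⟩
  have h3 : ((blk E i).card : ℝ) ≤ ({n : ℕ | 1 ≤ n ∧ n ≤ 2 ^ (i + 1) ∧ E n}.ncard : ℝ) := by exact_mod_cast h2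
  refine h3.trans (h1.trans ?_)
  push_cast
  rw [Real.log_pow]
  have hi0 : (0 : ℝ) < i := by exact_mod_cast hi
  have hl : (1 : ℝ) / 2 ≤ Real.log 2 := by have := Real.log_two_gt_d9; linarith
  have h4 : (i : ℝ) / 2 ≤ ((i + 1 : ℕ) : ℝ) * Real.log 2 := by
    push_cast
    nlinarith
  have h5 : ((i : ℝ) / 2) ^ 2 ≤ (((i + 1 : ℕ) : ℝ) * Real.log 2) ^ 2 := by gcongr
  calc C * (2 ^ (i + 1) / (((i + 1 : ℕ) : ℝ) * Real.log 2) ^ 2) ≤ C * (2 ^ (i + 1) / ((i : ℝ) / 2) ^ 2) := by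
        gcongr
    _ = 8 * C * 2 ^ i / (i : ℝ) ^ 2 := by
        rw [pow_succ]
        field_simp
        ring

/-- the measure of the exceptional parameters at the time `n` -/
lemma vol_step {E : ℕ → Prop} {C : ℝ} (hC : 0 < C)
    (hE : ∀ X : ℕ, 2 ≤ X → ({n : ℕ | 1 ≤ n ∧ n ≤ X ∧ E n}.ncard : ℝ) ≤ C * (X / (Real.log X) ^ 2))
    {A B : ℝ} (hA : 1 < A) (hAB : A ≤ B) {n k : ℕ} {w : ℝ} (hn : 1 ≤ n) (hk : 2 ≤ k) (hkA : (4 : ℝ) ^ k ≤ A ^ n) (hw0 : 0 ≤ w)
    (hw : w ≤ A ^ n / 4) :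
    volume {x : ℝ | A ≤ x ∧ x ≤ B ∧ ∃ z : ℕ, E z ∧ |(z : ℝ) - x ^ n| ≤ w} ≤
      ENNReal.ofReal (32 * B * C * w / (n * k)) := by
  classical
  have hB : 0 < B := by linarith
  have hn0 : (0 : ℝ) < n := by exact_mod_cast hn
  have hk0 : (0 : ℝ) < k := by exact_mod_cast (by omega : 0 < k)
  obtain ⟨N, hN⟩ := pow_unbounded_of_one_lt (B ^ n + w) (show (1 : ℝ) < 2 by norm_num)
  have hA0 : 0 < A := by linarith
  have hAn : 0 < A ^ n := pow_pos hA0 n
  have hsub : {x : ℝ | A ≤ x ∧ x ≤ B ∧ ∃ z : ℕ, E z ∧ |(z : ℝ) - x ^ n| ≤ w} ⊆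
      ⋃ i ∈ Finset.Ioc k N, ⋃ z ∈ blk E i, {x : ℝ | A ≤ x ∧ x ≤ B ∧ |(z : ℝ) - x ^ n| ≤ w} := by
    rintro x ⟨h1, h2, z, hz, h3⟩
    have h0 : 0 ≤ x := by linarith
    have h3' := h3
    rw [abs_le] at h3
    have h4 : A ^ n ≤ x ^ n := pow_le_pow_left₀ hA0.le h1 n
    have h5 : x ^ n ≤ B ^ n := pow_le_pow_left₀ h0 h2 n
    have h6 : 3 / 4 * A ^ n ≤ z := by linarith
    have h7 : (2 : ℝ) ^ (k + 1) ≤ z := by
      refine le_trans ?_ h6
      refine le_trans ?_ (mul_le_mul_of_nonneg_left hkA (by norm_num))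
      have h8 : (4 : ℝ) ^ k = 2 ^ k * 2 ^ k := by
        rw [← mul_pow]; norm_num
      have h9 : (4 : ℝ) ≤ 2 ^ k := by
        calc (4 : ℝ) = 2 ^ 2 := by norm_num
          _ ≤ 2 ^ k := pow_le_pow_right₀ (by norm_num) hk
      rw [h8, pow_succ]
      nlinarith [pow_pos (show (0 : ℝ) < 2 by norm_num) k]
    have h10 : 2 ^ (k + 1) ≤ z := by exact_mod_cast h7
    have hz0 : z ≠ 0 := by
      have := Nat.pos_of_ne_zero (pow_ne_zero (k + 1) (show 2 ≠ 0 by norm_num))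
      omega
    set i := Nat.log 2 z with hi
    have h11 : 2 ^ i ≤ z := Nat.pow_log_le_self 2 hz0
    have h12 : z < 2 ^ (i + 1) := Nat.lt_pow_succ_log_self (by norm_num) z
    have h13 : k < i := by
      by_contra h
      have : 2 ^ (i + 1) ≤ 2 ^ (k + 1) := Nat.pow_le_pow_right (by norm_num) (by omega)
      omega
    have h14 : i ≤ N := by
      by_contra h
      have h15 : 2 ^ N ≤ 2 ^ i := Nat.pow_le_pow_right (by norm_num) (by omega)
      have h16 : ((2 ^ N : ℕ) : ℝ) ≤ z := by exact_mod_cast h15.trans h11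
      push_cast at h16
      linarith
    simp only [Set.mem_iUnion]
    exact ⟨i, Finset.mem_Ioc.2 ⟨h13, h14⟩, z, mem_blk.2 ⟨⟨h11, h12⟩, hz⟩, h1, h2, h3'⟩
  have hV : ∀ z : ℕ, 0 < z → volume {x : ℝ | A ≤ x ∧ x ≤ B ∧ |(z : ℝ) - x ^ n| ≤ w} ≤
      ENNReal.ofReal (4 * B * w / (n * z)) := by
    intro z hz
    have hz0 : (0 : ℝ) < z := by exact_mod_cast hz
    by_cases hwz : w ≤ z / 2
    · refine le_trans (measure_mono ?_) (vol_pow hn hB hz0 hwz)
      rintro x ⟨h1, h2, h3⟩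
      exact ⟨by linarith, h2, h3⟩
    · have : {x : ℝ | A ≤ x ∧ x ≤ B ∧ |(z : ℝ) - x ^ n| ≤ w} = ∅ := by
        rw [Set.eq_empty_iff_forall_notMem]
        rintro x ⟨h1, h2, h3⟩
        have h4 : A ^ n ≤ x ^ n := pow_le_pow_left₀ hA0.le h1 n
        rw [abs_le] at h3
        apply hwz
        linarith
      rw [this, measure_empty]
      exact zero_le
  have hblk : ∀ i ∈ Finset.Ioc k N, volume (⋃ z ∈ blk E i, {x : ℝ | A ≤ x ∧ x ≤ B ∧ |(z : ℝ) - x ^ n| ≤ w}) ≤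
      ENNReal.ofReal (32 * B * C * w / n * ((i : ℝ) ^ 2)⁻¹) := by
    intro i hi
    rw [Finset.mem_Ioc] at hi
    have hi0 : (0 : ℝ) < i := by exact_mod_cast (by omega : 0 < i)
    refine (measure_biUnion_finset_le _ _).trans ?_
    have h1 : ∑ z ∈ blk E i, volume {x : ℝ | A ≤ x ∧ x ≤ B ∧ |(z : ℝ) - x ^ n| ≤ w} ≤
        ∑ z ∈ blk E i, ENNReal.ofReal (4 * B * w / (n * 2 ^ i)) := by
      refine Finset.sum_le_sum fun z hz => ?_
      rw [mem_blk] at hz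
      have h2 : (2 : ℝ) ^ i ≤ z := by exact_mod_cast hz.1.1
      refine (hV z (lt_of_lt_of_le (by positivity) hz.1.1)).trans (ENNReal.ofReal_le_ofReal ?_)
      gcongr
    refine h1.trans ?_
    rw [Finset.sum_const, nsmul_eq_mul, ← ENNReal.ofReal_natCast, ← ENNReal.ofReal_mul (Nat.cast_nonneg _)]
    refine ENNReal.ofReal_le_ofReal ?_
    calc ((blk E i).card : ℝ) * (4 * B * w / (n * 2 ^ i)) ≤ 8 * C * 2 ^ i / (i : ℝ) ^ 2 * (4 * B * w / (n * 2 ^ i)) := by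
          refine mul_le_mul_of_nonneg_right (card_blk hC hE (by omega)) (by positivity)
      _ = 32 * B * C * w / n * ((i : ℝ) ^ 2)⁻¹ := by
          field_simp
          ring
  refine (measure_mono hsub).trans ((measure_biUnion_finset_le _ _).trans ((Finset.sum_le_sum hblk).trans ?_))
  rw [← ENNReal.ofReal_sum_of_nonneg (fun i _ => by positivity), ← Finset.mul_sum]
  refine ENNReal.ofReal_le_ofReal ?_
  have h1 : ∑ i ∈ Finset.Ioc k N, ((i : ℝ) ^ 2)⁻¹ ≤ (k : ℝ)⁻¹ := by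
    rcases le_total k N with h | h
    · have h2 := sum_Ioc_inv_sq_le_sub (α := ℝ) (k := k) (n := N) (by omega) h
      have h3 : (0 : ℝ) ≤ (N : ℝ)⁻¹ := by positivity
      linarith
    · rw [Finset.Ioc_eq_empty (by omega), Finset.sum_empty]
      positivity
  calc 32 * B * C * w / n * ∑ i ∈ Finset.Ioc k N, ((i : ℝ) ^ 2)⁻¹ ≤ 32 * B * C * w / n * (k : ℝ)⁻¹ := by gcongr
    _ = 32 * B * C * w / (n * k) := by field_simp

theorem ae_pow {E : ℕ → Prop} {C : ℝ} (hC : 0 < C)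
    (hE : ∀ X : ℕ, 2 ≤ X → ({n : ℕ | 1 ≤ n ∧ n ≤ X ∧ E n}.ncard : ℝ) ≤ C * (X / (Real.log X) ^ 2))
    (w : ℕ → ℝ) (hw0 : ∀ n, 0 ≤ w n) (hw : Summable fun n : ℕ => w n / ((n : ℝ) + 1) ^ 2) :
    ∀ᵐ x : ℝ, 1 < x → {n : ℕ | ∃ z : ℕ, E z ∧ |(z : ℝ) - x ^ n| ≤ w n}.Finite := by
  have main : ∀ m : ℕ, ∀ᵐ x : ℝ, 1 + 1 / ((m : ℝ) + 1) ≤ x → x ≤ m + 2 →
      {n : ℕ | ∃ z : ℕ, E z ∧ |(z : ℝ) - x ^ n| ≤ w n}.Finite := by
    intro m
    obtain ⟨A, hAd⟩ : ∃ A : ℝ, A = 1 + 1 / ((m : ℝ) + 1) := ⟨_, rfl⟩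
    obtain ⟨B, hBd⟩ : ∃ B : ℝ, B = m + 2 := ⟨_, rfl⟩
    rw [← hAd, ← hBd]
    have hm0 : (0 : ℝ) ≤ m := Nat.cast_nonneg m
    have hA : 1 < A := by
      rw [hAd]
      have : 0 < 1 / ((m : ℝ) + 1) := by positivity
      linarith
    have hAB : A ≤ B := by
      rw [hAd, hBd]
      have : 1 / ((m : ℝ) + 1) ≤ 1 := by
        rw [div_le_one (by positivity)]
        linarith
      linarith
    have hB : 0 < B := by linarith
    obtain ⟨h, hh⟩ := pow_unbounded_of_one_lt (4 : ℝ) hA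
    have hh0 : 1 ≤ h := by
      rcases Nat.eq_zero_or_pos h with h0 | h0
      · rw [h0, pow_zero] at hh
        norm_num at hh
      · exact h0
    have e1 : ∀ᶠ n : ℕ in atTop, w n / ((n : ℝ) + 1) ^ 2 < 1 :=
      hw.tendsto_atTop_zero.eventually (gt_mem_nhds one_pos)
    have e2 : ∀ᶠ n : ℕ in atTop, (n : ℝ) ^ 2 / A ^ n < 1 / 16 :=
      (tendsto_pow_const_div_const_pow_of_one_lt 2 hA).eventually (gt_mem_nhds (by norm_num))
    obtain ⟨n0, hn0⟩ := ((e1.and e2).and (eventually_ge_atTop (2 * h))).exists_forall_of_atTop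
    have step : ∀ n : ℕ, n0 ≤ n →
        volume {x : ℝ | A ≤ x ∧ x ≤ B ∧ ∃ z : ℕ, E z ∧ |(z : ℝ) - x ^ n| ≤ w n} ≤
          ENNReal.ofReal (128 * B * C * h * (w n / ((n : ℝ) + 1) ^ 2)) := by
      intro n hn
      obtain ⟨⟨h1, h2⟩, h3⟩ := hn0 n hn
      have hn1 : 1 ≤ n := by omega
      have hnr : (1 : ℝ) ≤ n := by exact_mod_cast hn1
      have hAn : 0 < A ^ n := pow_pos (by linarith) n
      rw [div_lt_one (by positivity)] at h1
      rw [div_lt_iff₀ hAn] at h2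
      have hk : 2 ≤ n / h := by
        rw [Nat.le_div_iff_mul_le (by omega)]
        omega
      have hkA : (4 : ℝ) ^ (n / h) ≤ A ^ n := by
        calc (4 : ℝ) ^ (n / h) ≤ (A ^ h) ^ (n / h) := pow_le_pow_left₀ (by norm_num) hh.le _
          _ = A ^ (h * (n / h)) := by rw [← pow_mul]
          _ ≤ A ^ n := pow_le_pow_right₀ hA.le (Nat.mul_div_le n h)
      have hwn : w n ≤ A ^ n / 4 := by nlinarith
      refine (vol_step hC hE hA hAB hn1 hk hkA (hw0 n) hwn).trans (ENNReal.ofReal_le_ofReal ?_)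
      have hk0 : (0 : ℝ) < ((n / h : ℕ) : ℝ) := by exact_mod_cast (by omega : 0 < n / h)
      have hh0' : (0 : ℝ) < h := by exact_mod_cast hh0
      have h4 : (n : ℝ) + 1 ≤ 2 * h * ((n / h : ℕ) : ℝ) := by
        have h5 : n < h * (n / h + 1) := by
          have := Nat.lt_mul_div_succ n (show 0 < h by omega)
          simpa using this
        have h6 : n + 1 ≤ 2 * h * (n / h) := by
          have : h ≤ h * (n / h) := Nat.le_mul_of_pos_right h (by omega)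
          calc n + 1 ≤ h * (n / h + 1) := h5
            _ = h * (n / h) + h := by ring
            _ ≤ 2 * h * (n / h) := by
              calc h * (n / h) + h ≤ h * (n / h) + h * (n / h) := by omega
                _ = 2 * h * (n / h) := by ring
        exact_mod_cast h6
      have h7 : ((n : ℝ) + 1) ^ 2 ≤ 4 * h * (n * ((n / h : ℕ) : ℝ)) := by
        calc ((n : ℝ) + 1) ^ 2 = ((n : ℝ) + 1) * ((n : ℝ) + 1) := by ring
          _ ≤ (2 * n) * (2 * h * ((n / h : ℕ) : ℝ)) := by gcongr; linarith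
          _ = 4 * h * (n * ((n / h : ℕ) : ℝ)) := by ring
      rw [← mul_div_assoc, div_le_div_iff₀ (by positivity) (by positivity)]
      calc 32 * B * C * w n * ((n : ℝ) + 1) ^ 2 ≤ 32 * B * C * w n * (4 * h * (n * ((n / h : ℕ) : ℝ))) := by
            refine mul_le_mul_of_nonneg_left h7 ?_
            have := hw0 n
            positivity
        _ = 128 * B * C * h * w n * (n * ((n / h : ℕ) : ℝ)) := by ring
    have hfin : ∑' i : ℕ, volume {x : ℝ | A ≤ x ∧ x ≤ B ∧ ∃ z : ℕ, E z ∧ |(z : ℝ) - x ^ (i + n0)| ≤ w (i + n0)} ≠ ⊤ := by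
      have h1 : Summable fun i : ℕ => 128 * B * C * h * (w (i + n0) / (((i + n0 : ℕ) : ℝ) + 1) ^ 2) :=
        ((summable_nat_add_iff n0).2 hw).mul_left _
      refine ne_top_of_le_ne_top h1.tsum_ofReal_ne_top (ENNReal.tsum_le_tsum fun i => ?_)
      exact step (i + n0) (by omega)
    filter_upwards [ae_finite_setOfPred_mem hfin] with x hx hxA hxB
    have h2 : {n : ℕ | ∃ z : ℕ, E z ∧ |(z : ℝ) - x ^ n| ≤ w n} ⊆
        (fun i => i + n0) '' {i : ℕ | x ∈ {x : ℝ | A ≤ x ∧ x ≤ B ∧ ∃ z : ℕ, E z ∧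
          |(z : ℝ) - x ^ (i + n0)| ≤ w (i + n0)}} ∪ {n | n < n0} := by
      intro n hn
      rcases lt_or_ge n n0 with h3 | h3
      · exact Or.inr h3
      · left
        refine ⟨n - n0, ⟨hxA, hxB, ?_⟩, by simp only; omega⟩
        rw [Nat.sub_add_cancel h3]
        exact hn
    exact ((hx.image _).union (Set.finite_lt_nat n0)).subset h2
  filter_upwards [ae_all_iff.2 main] with x hx hx1
  obtain ⟨m, hm⟩ := exists_nat_ge (max (1 / (x - 1)) x)
  refine hx m ?_ ?_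
  · have h1 := (le_max_left _ _).trans hm
    have h2 : 0 < x - 1 := by linarith
    rw [div_le_iff₀ h2] at h1
    have h3 : (0 : ℝ) < (m : ℝ) + 1 := by positivity
    have h4 : 1 / ((m : ℝ) + 1) ≤ x - 1 := by
      rw [div_le_iff₀ h3]
      nlinarith
    linarith
  · have h1 := (le_max_right (1 / (x - 1)) x).trans hm
    linarith

end Pool.Agent.Run7.h207.LG
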